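import Pool.Agent.R307.TtoDef3

/-!
# Modified Aleksandrov-Clark bases: definitions

The definitions of `L2`, `fn`, `ip`, `AE`, `InH2`, `IsInner`, `InModel`, `IsTTO`, `UnitaryOnto` are
those of `Pool.Agent.R307.TtoDef3`: the unit circle is `ℝ / ℤ` with normalised Haar measure, the
point `t` standing for `z = exp (2 π i t)`.
-/

set_option autoImplicit false

open MeasureTheory Pool.Agent.R307.Ttz

namespace Pool.Agent.Helper774_AC

/-- The point `z = exp (2 π i t)` of the unit circle. -/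
noncomputable def zz (t : AddCircle (1 : ℝ)) : ℂ := fourier 1 t

/-- The Blaschke product of degree `n` with zeros `a` and unimodular factor `c`. -/
noncomputable def blaschke {n : ℕ} (c : ℂ) (a : Fin n → ℂ) (z : ℂ) : ℂ :=
  c * ∏ j, (z - a j) / (1 - starRingEnd ℂ (a j) * z)

/-- The operator `x ↦ M x` on `ℂⁿ`. -/
noncomputable def act {n : ℕ} (M : Matrix (Fin n) (Fin n) ℂ) (x : EuclideanSpace ℂ (Fin n)) :
    EuclideanSpace ℂ (Fin n) :=
  WithLp.toLp 2 (M.mulVec (WithLp.ofLp x))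

/-- The matrix `M` is unitarily equivalent to a truncated Toeplitz operator with a bounded
symbol. -/
def UETTOMatrix {n : ℕ} (M : Matrix (Fin n) (Fin n) ℂ) : Prop :=
  ∃ Θ φ : L2, IsInner Θ ∧ (∃ C : ℝ, AE (fun t => ‖fn φ t‖ ≤ C)) ∧ ∃ A : L2 → L2, IsTTO Θ φ A ∧
    ∃ U : EuclideanSpace ℂ (Fin n) → L2, UnitaryOnto Θ U ∧ ∀ x, U (act M x) = A (U x)

/-- `e` is a modified Aleksandrov-Clark basis of the model space of the finite Blaschke product
`Θ` of degree `n`: for a unimodular `α` and the `n` distinct solutions `ζ j` of `Θ (ζ j) = α` on the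
unit circle, `k j` is the boundary kernel `(1 - conj α Θ) / (1 - conj (ζ j) z)`, and
`e j = w j • k j / ‖k j‖` where `w j ^ 2 = α conj (ζ j)`. -/
def IsModifiedClark {n : ℕ} (Θ : L2) (e : Fin n → L2) : Prop :=
  ∃ (c : ℂ) (a : Fin n → ℂ) (α : ℂ) (ζ w : Fin n → ℂ) (k : Fin n → L2),
    ‖c‖ = 1 ∧ (∀ j, ‖a j‖ < 1) ∧ AE (fun t => fn Θ t = blaschke c a (zz t)) ∧
    ‖α‖ = 1 ∧ Function.Injective ζ ∧ (∀ j, ‖ζ j‖ = 1) ∧ (∀ j, blaschke c a (ζ j) = α) ∧
    (∀ j, w j ^ 2 = α * starRingEnd ℂ (ζ j)) ∧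
    (∀ j, AE (fun t => fn (k j) t
      = (1 - starRingEnd ℂ α * blaschke c a (zz t)) / (1 - starRingEnd ℂ (ζ j) * zz t))) ∧
    ∀ j, e j = (w j / (‖k j‖ : ℂ)) • k j

/-- `M` is the matrix of a truncated Toeplitz operator with respect to a modified
Aleksandrov-Clark basis, for some finite Blaschke product `Θ` and some symbol `φ ∈ L²`. -/
def IsClarkMatrix {n : ℕ} (M : Matrix (Fin n) (Fin n) ℂ) : Prop :=
  ∃ (Θ φ : L2) (A : L2 → L2) (e : Fin n → L2), IsTTO Θ φ A ∧ IsModifiedClark Θ e ∧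
    ∀ i j, ip (e i) (A (e j)) = M i j

/-- `M` is irreducible: it has no reducing subspace other than `0` and `ℂⁿ`. -/
def IsIrreducible {n : ℕ} (M : Matrix (Fin n) (Fin n) ℂ) : Prop :=
  ∀ W : Submodule ℂ (Fin n → ℂ), (∀ x ∈ W, M.mulVec x ∈ W) →
    (∀ x ∈ W, M.conjTranspose.mulVec x ∈ W) → W = ⊥ ∨ W = ⊤

/-- The matrix of the counterexample. -/
noncomputable def M0 : Matrix (Fin 3) (Fin 3) ℂ :=
  !![1, 1, Complex.I; 1, 0, 1; Complex.I, 1, -1]

end Pool.Agent.Helper774_AC
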