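import Pool.Agent.Helper774_AC.Def

/-!
# The matrix `M0` is symmetric and irreducible
-/

set_option autoImplicit false

namespace Pool.Agent.Helper774_AC

theorem M0_symm : M0.transpose = M0 := by
  ext i j
  fin_cases i <;> fin_cases j <;> simp [M0]

theorem M0_irr : IsIrreducible M0 := by
  intro W h1 h2
  by_cases hW : W = ⊥
  · exact Or.inl hW
  right
  have hM : ∀ x : Fin 3 → ℂ, M0.mulVec x =
      ![x 0 + x 1 + Complex.I * x 2, x 0 + x 2, Complex.I * x 0 + x 1 - x 2] := by
    intro x
    funext i
    fin_cases i <;> simp [M0, Matrix.mulVec, dotProduct, Fin.sum_univ_three] <;> ring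
  have hMH : ∀ x : Fin 3 → ℂ, M0.conjTranspose.mulVec x =
      ![x 0 + x 1 - Complex.I * x 2, x 0 + x 2, -Complex.I * x 0 + x 1 - x 2] := by
    intro x
    funext i
    fin_cases i <;> simp [M0, Matrix.mulVec, dotProduct, Fin.sum_univ_three, Matrix.conjTranspose] <;> ring
  have hX : ∀ x ∈ W, ![x 0 + x 1, x 0 + x 2, x 1 - x 2] ∈ W := by
    intro x hx
    have h3 := W.smul_mem (1/2 : ℂ) (W.add_mem (h1 x hx) (h2 x hx))
    rw [hM, hMH] at h3
    convert h3 using 1
    funext i
    fin_cases i <;> simp <;> ring
  have hY : ∀ x ∈ W, ![x 2, 0, x 0] ∈ W := by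
    intro x hx
    have h3 := W.smul_mem (-Complex.I/2 : ℂ) (W.sub_mem (h1 x hx) (h2 x hx))
    rw [hM, hMH] at h3
    convert h3 using 1
    funext i
    fin_cases i
    · simp
      linear_combination (x 2) * Complex.I_mul_I
    · simp
    · simp
      linear_combination (x 0) * Complex.I_mul_I
  have hE : ∀ x ∈ W, x 1 ≠ 0 → W = ⊤ := by
    intro x hx hx1
    have h3 : ![x 0, 0, x 2] ∈ W := by
      have := hY _ (hY x hx)
      simpa using this
    have h4 : ![(0:ℂ), 1, 0] ∈ W := by
      have := W.smul_mem (x 1)⁻¹ (W.sub_mem hx h3)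
      convert this using 1
      funext i
      fin_cases i
      · change (0:ℂ) = (x 1)⁻¹ * (x 0 - x 0)
        ring
      · change (1:ℂ) = (x 1)⁻¹ * (x 1 - 0)
        rw [sub_zero, inv_mul_cancel₀ hx1]
      · change (0:ℂ) = (x 1)⁻¹ * (x 2 - x 2)
        ring
    have h5 : ![(1:ℂ), 0, 1] ∈ W := by
      have := W.sub_mem (hX _ h4) (W.zero_mem)
      have h6 := hY _ (hY _ (hX _ h4))
      have h7 := hX _ h4
      -- X e2 = (1, 0, 1)
      convert h7 using 1
      funext i
      fin_cases i <;> simp
    have h6 : ![(1:ℂ), 2, -1] ∈ W := by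
      convert hX _ h5 using 1
      funext i
      fin_cases i <;> simp
      norm_num
    have h7 : ![(1:ℂ), 0, 0] ∈ W := by
      have := W.smul_mem (1/2 : ℂ) (W.add_mem h5 (W.sub_mem h6 (W.smul_mem 2 h4)))
      convert this using 1
      funext i
      fin_cases i <;> simp <;> norm_num
    have h8 : ![(0:ℂ), 0, 1] ∈ W := by
      convert W.sub_mem h5 h7 using 1
      funext i
      fin_cases i <;> simp
    rw [eq_top_iff]
    intro y _
    have := W.add_mem (W.add_mem (W.smul_mem (y 0) h7) (W.smul_mem (y 1) h4)) (W.smul_mem (y 2) h8)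
    convert this using 1
    funext i
    fin_cases i <;> simp
  obtain ⟨x, hx, hx0⟩ := Submodule.exists_mem_ne_zero_of_ne_bot hW
  by_cases h3 : x 1 = 0
  · by_cases h4 : x 0 + x 2 = 0
    · have h5 := hX x hx
      have hx0' : x 0 ≠ 0 := by
        intro h
        apply hx0
        funext i
        fin_cases i
        · exact h
        · exact h3
        · have : x 2 = 0 := by linear_combination h4 - h
          exact this
      have h6 : ![x 0, 0, x 0] ∈ W := by
        convert h5 using 1
        funext i
        fin_cases i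
        · simp [h3]
        · simp [h4]
        · simp [h3]
          linear_combination h4
      refine hE _ (hX _ h6) ?_
      simpa using hx0'
    · exact hE _ (hX x hx) (by simpa using h4)
  · exact hE x hx h3

end Pool.Agent.Helper774_AC
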