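import Pool.Agent.Helper774_AC.Neg

/-!
# The matrix `M0` does not come from a modified Aleksandrov-Clark basis: conclusion
-/

set_option autoImplicit false

open MeasureTheory Pool.Agent.R307
open scoped ComplexConjugate

namespace Pool.Agent.Helper774_AC

/-- pointwise identity between boundary kernels -/
lemma pointwise {u z x y : ℂ} (hz : z * conj z = 1) (hx : conj x * x = 1)
    (h1 : 1 - conj x * z ≠ 0) (h2 : 1 - conj y * z ≠ 0) :
    conj (u / (1 - conj x * z)) * ((conj x - conj y) * (u / (1 - conj y * z)))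
      = conj u * (conj x * (u / (1 - conj y * z) - u / (1 - conj x * z))) := by
  have h3 : (1 - x * conj z) * (conj x * z) = -(1 - conj x * z) := by
    linear_combination (-(z * conj z)) * hx - hz
  have h4 : 1 - x * conj z ≠ 0 := by
    intro h
    rw [h, zero_mul] at h3
    exact h1 (by linear_combination h3)
  rw [map_div₀, map_sub, map_one, map_mul, Complex.conj_conj]
  rw [div_sub_div _ _ h2 h1]
  rw [div_mul_eq_mul_div, mul_div_assoc', mul_div_assoc', mul_div_assoc', mul_div_assoc',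
    div_div, div_eq_div_iff (mul_ne_zero h2 h4) (mul_ne_zero h2 h1)]
  linear_combination (conj u * u * (conj x - conj y) * (1 - conj y * z)) * h3

/-- the abstract statement -/
lemma cycle {N : Fin 3 → ℝ} (hN : ∀ i, N i ≠ 0) {w ζ H : Fin 3 → ℂ} {α : ℂ} {κ : Fin 3 → Fin 3 → ℂ}
    (hα : ‖α‖ = 1) (hζ : ∀ j, ‖ζ j‖ = 1) (hinj : Function.Injective ζ)
    (hw : ∀ j, w j ^ 2 = α * conj (ζ j))
    (hκ : ∀ i j, i ≠ j → (conj (ζ i) - conj (ζ j)) * κ i j = conj (ζ i) * (H j - H i))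
    (hM : ∀ i j, conj (w i / (N i : ℂ)) * (w j / (N j : ℂ)) * κ i j = M0 i j) : False := by
  have hwn : ∀ j, w j * conj (w j) = 1 := by
    intro j
    have h1 : ‖w j‖ ^ 2 = 1 := by
      rw [← norm_pow, hw, norm_mul, RCLike.norm_conj, hα, hζ, one_mul]
    rw [Complex.mul_conj, Complex.normSq_eq_norm_sq, h1]
    norm_num
  have hw0 : ∀ j, w j ≠ 0 := fun j h => by
    have := hwn j
    rw [h, zero_mul] at this
    exact zero_ne_one this
  have key : ∀ i j, i ≠ j →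
      H j - H i = M0 i j * (N i * N j : ℂ) * (w i * conj (w j) - w j * conj (w i)) := by
    intro i j hij
    have h1 := hκ i j hij
    have h2 : (w i ^ 2 - w j ^ 2) * κ i j = w i ^ 2 * (H j - H i) := by
      rw [hw i, hw j]
      linear_combination α * h1
    have h3 : M0 i j * (N i * N j : ℂ) = conj (w i) * w j * κ i j := by
      have hNi : (N i : ℂ) ≠ 0 := by exact_mod_cast hN i
      have hNj : (N j : ℂ) ≠ 0 := by exact_mod_cast hN j
      rw [← hM i j, map_div₀, Complex.conj_ofReal]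
      field_simp
    rw [h3]
    have h4 := hwn i
    have h5 := hwn j
    have h6 : w i ^ 2 * (H j - H i - conj (w i) * w j * κ i j * (w i * conj (w j) - w j * conj (w i))) = 0 := by
      have e1 : w i ^ 2 * (conj (w i) * w j * κ i j * (w i * conj (w j) - w j * conj (w i)))
          = κ i j * ((w i * conj (w i)) * (w j * conj (w j)) * w i ^ 2
            - (w i * conj (w i)) ^ 2 * w j ^ 2) := by ring
      rw [mul_sub, e1, h4, h5]
      linear_combination -h2
    exact sub_eq_zero.1 ((mul_eq_zero.1 h6).resolve_left (pow_ne_zero 2 (hw0 i)))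
  have k01 := key 0 1 (by decide)
  have k12 := key 1 2 (by decide)
  have k20 := key 2 0 (by decide)
  have m01 : M0 0 1 = 1 := by simp [M0]
  have m12 : M0 1 2 = 1 := by simp [M0]
  have m20 : M0 2 0 = Complex.I := by simp [M0]
  rw [m01] at k01
  rw [m12] at k12
  rw [m20] at k20
  have hsum : (N 0 * N 1 : ℂ) * (w 0 * conj (w 1) - w 1 * conj (w 0))
      + (N 1 * N 2 : ℂ) * (w 1 * conj (w 2) - w 2 * conj (w 1))
      + Complex.I * (N 2 * N 0 : ℂ) * (w 2 * conj (w 0) - w 0 * conj (w 2)) = 0 := by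
    linear_combination -k01 - k12 - k20
  have hconj := congrArg conj hsum
  simp only [map_add, map_mul, map_sub, Complex.conj_conj, Complex.conj_ofReal, Complex.conj_I,
    map_zero] at hconj
  have h7 : (N 2 * N 0 : ℂ) * (Complex.I * (w 2 * conj (w 0) - w 0 * conj (w 2))) = 0 := by
    linear_combination (1/2 : ℂ) * hsum + (1/2 : ℂ) * hconj
  have hNN : (N 2 * N 0 : ℂ) ≠ 0 := mul_ne_zero (by exact_mod_cast hN 2) (by exact_mod_cast hN 0)
  have h8 := (mul_eq_zero.1 ((mul_eq_zero.1 h7).resolve_left hNN)).resolve_left Complex.I_ne_zero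
  have h9 : w 2 ^ 2 = w 0 ^ 2 := by
    have h4 := hwn 0
    have h5 := hwn 2
    linear_combination (w 2 * w 0) * h8 - w 2 ^ 2 * h4 + w 0 ^ 2 * h5
  rw [hw, hw] at h9
  have hα0 : α ≠ 0 := fun h => by rw [h, norm_zero] at hα; exact zero_ne_one hα
  have h10 := mul_left_cancel₀ hα0 h9
  have h11 : ζ 2 = ζ 0 := by
    have := congrArg conj h10
    simpa using this
  exact absurd (hinj h11) (by decide)

lemma not_clark_core (Θ φ : Tto.L2) (A : Tto.L2 → Tto.L2) (e : Fin 3 → Tto.L2)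
    (hA : ∀ f p : Tto.L2, f ∈ Tto.model Θ → (∃ C : ℝ, ∀ᵐ t ∂Tto.hm, ‖f t‖ ≤ C) →
      (∀ᵐ t ∂Tto.hm, p t = φ t * f t) → ∀ g : Tto.L2, g ∈ Tto.model Θ →
        (inner ℂ g p : ℂ) = inner ℂ g (A f))
    (c : ℂ) (a : Fin 3 → ℂ) (α : ℂ) (ζ w : Fin 3 → ℂ) (k : Fin 3 → Tto.L2)
    (hc : ‖c‖ = 1) (ha : ∀ j, ‖a j‖ < 1) (hΘ : ∀ᵐ t ∂Tto.hm, Θ t = blaschke c a (zz t))
    (hα : ‖α‖ = 1) (hinj : Function.Injective ζ) (hζ : ∀ j, ‖ζ j‖ = 1)
    (hsol : ∀ j, blaschke c a (ζ j) = α) (hw : ∀ j, w j ^ 2 = α * conj (ζ j))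
    (hk : ∀ j, ∀ᵐ t ∂Tto.hm, k j t = (1 - conj α * blaschke c a (zz t)) / (1 - conj (ζ j) * zz t))
    (he : ∀ j, e j = (w j / (‖k j‖ : ℂ)) • k j)
    (hM : ∀ i j, inner ℂ (e i) (A (e j)) = M0 i j) : False := by
  have hΘH : Θ ∈ Tto.H2 := theta_H2 ha hΘ
  have hΘ1 : ∀ᵐ t ∂Tto.hm, ‖Θ t‖ = 1 := by
    filter_upwards [hΘ] with t ht
    rw [ht]
    exact blaschke_norm hc ha (zz_norm t)
  have hkm : ∀ j, k j ∈ Tto.model Θ := by
    intro j
    refine kernel_mem (α := α) (ζ := ζ j) hΘH hΘ1 (hζ j) ?_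
    filter_upwards [hk j, hΘ] with t h1 h2
    rw [h1, h2]
  have hkb : ∀ j, ∃ C : ℝ, ∀ᵐ t ∂Tto.hm, ‖k j t‖ ≤ C := fun j =>
    kernel_bdd ha hα (hζ j) (hsol j) (hk j)
  -- products with the symbol
  have hv : ∀ j, ∃ v : Tto.L2, ∀ᵐ t ∂Tto.hm, v t = k j t * φ t := by
    intro j
    obtain ⟨C, hC⟩ := hkb j
    exact Tto.ex_mul (fun t => k j t) (Lp.aestronglyMeasurable (k j)) C hC φ
  choose v hv using hv
  have hem : ∀ j, e j ∈ Tto.model Θ := by
    intro j
    rw [he]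
    exact (Tto.model Θ).smul_mem _ (hkm j)
  have heb : ∀ j, ∃ C : ℝ, ∀ᵐ t ∂Tto.hm, ‖e j t‖ ≤ C := by
    intro j
    rw [he]
    exact Tto.Bd.smul (hkb j) _
  have hM2 : ∀ i j, conj (w i / (‖k i‖ : ℂ)) * (w j / (‖k j‖ : ℂ)) * inner ℂ (k i) (v j) = M0 i j := by
    intro i j
    have h1 := hA (e j) ((w j / (‖k j‖ : ℂ)) • v j) (hem j) (heb j) (by
      rw [he]
      filter_upwards [hv j, Lp.coeFn_smul (w j / (‖k j‖ : ℂ)) (v j),
        Lp.coeFn_smul (w j / (‖k j‖ : ℂ)) (k j)] with t h1 h2 h3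
      rw [h2, h3, Pi.smul_apply, Pi.smul_apply, h1, smul_eq_mul, smul_eq_mul]
      ring) (e i) (hem i)
    rw [← hM i j, ← h1, he i, inner_smul_left, inner_smul_right]
    ring
  have hN : ∀ i, ‖k i‖ ≠ 0 := by
    intro i hi
    have h0 : ∀ j, M0 i j = 0 := by
      intro j
      rw [← hM2 i j, hi]
      simp
    fin_cases i
    · have := h0 1
      simp [M0] at this
    · have := h0 2
      simp [M0] at this
    · have := h0 0
      simp [M0] at this
  set H : Fin 3 → ℂ := fun j => inner ℂ (Tto.ee 0 - conj α • Θ) (v j) with hH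
  refine cycle (N := fun i => ‖k i‖) hN (w := w) (ζ := ζ) (H := H) (κ := fun i j => inner ℂ (k i) (v j))
    hα hζ hinj hw ?_ hM2
  intro i j _
  have hG : ∀ᵐ t ∂Tto.hm, (Tto.ee 0 - conj α • Θ) t = 1 - conj α * blaschke c a (zz t) := by
    filter_upwards [Lp.coeFn_sub (Tto.ee 0) (conj α • Θ), Lp.coeFn_smul (conj α) Θ,
      Tto.ee_coe 0, hΘ] with t h1 h2 h3 h4
    rw [h1, Pi.sub_apply, h2, Pi.smul_apply, h3, h4, fourier_zero, smul_eq_mul]
  have h1 : (inner ℂ (k i) ((conj (ζ i) - conj (ζ j)) • v j) : ℂ)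
      = inner ℂ (Tto.ee 0 - conj α • Θ) (conj (ζ i) • (v j - v i)) := by
    rw [Tto.inner_eq, Tto.inner_eq]
    refine integral_congr_ae ?_
    filter_upwards [hG, hk i, hk j, hv i, hv j, ae_ne (ζ i), ae_ne (ζ j),
      Lp.coeFn_smul (conj (ζ i) - conj (ζ j)) (v j), Lp.coeFn_smul (conj (ζ i)) (v j - v i),
      Lp.coeFn_sub (v j) (v i)] with t h1 h2 h3 h4 h5 h6 h7 h8 h9 h10
    rw [h1, h8, h9, Pi.smul_apply, Pi.smul_apply, h10, Pi.sub_apply, h4, h5, h2, h3, smul_eq_mul,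
      smul_eq_mul]
    have hne : ∀ x : ℂ, ‖x‖ = 1 → zz t ≠ x → 1 - conj x * zz t ≠ 0 := by
      intro x hx hx2 h
      apply hx2
      have hxx : x * conj x = 1 := by
        rw [Complex.mul_conj, Complex.normSq_eq_norm_sq, hx]; norm_num
      linear_combination (-x) * h - zz t * hxx
    have hxx : conj (ζ i) * ζ i = 1 := by
      rw [← Complex.normSq_eq_conj_mul_self, Complex.normSq_eq_norm_sq, hζ i]; norm_num
    have hp := pointwise (u := 1 - conj α * blaschke c a (zz t)) (y := ζ j) (zz_conj t) hxx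
      (hne _ (hζ i) h6) (hne _ (hζ j) h7)
    linear_combination (φ t) * hp
  rw [inner_smul_right, inner_smul_right, inner_sub_right] at h1
  exact h1

theorem not_clark : ¬ IsClarkMatrix M0 := by
  rintro ⟨Θ, φ, A, e, ⟨_, _, hA⟩, ⟨c, a, α, ζ, w, k, hc, ha, hΘ, hα, hinj, hζ, hsol, hw, hk, he⟩, hM⟩
  exact not_clark_core Θ φ A e (fun f p hf hb hp g hg => hA f p hf hb hp g hg) c a α ζ w k hc ha hΘ
    hα hinj hζ hsol hw hk he hM

end Pool.Agent.Helper774_AC
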