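import Pool.Agent.Helper774_AC.Def
import Pool.Agent.R307.Tto7

/-!
# The matrix `M0` does not come from a modified Aleksandrov-Clark basis
-/

set_option autoImplicit false

open MeasureTheory Pool.Agent.R307
open scoped ComplexConjugate

namespace Pool.Agent.Helper774_AC

lemma zz_norm (t : AddCircle (1 : ℝ)) : ‖zz t‖ = 1 := Tto.norm_fourier 1 t

lemma zz_cont : Continuous zz := (fourier 1 : C(AddCircle (1:ℝ), ℂ)).continuous

lemma zz_conj (t : AddCircle (1 : ℝ)) : zz t * conj (zz t) = 1 := by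
  rw [Complex.mul_conj, Complex.normSq_eq_norm_sq, zz_norm]; norm_num

lemma meas_singleton (x : AddCircle (1 : ℝ)) : Tto.hm {x} = 0 := by
  have h : (volume : Measure (AddCircle (1:ℝ))) = Tto.hm := by
    rw [AddCircle.volume_eq_smul_haarAddCircle]
    simp
  rw [← h, ← Metric.closedBall_zero, AddCircle.volume_closedBall]
  simp

lemma ae_ne (ζ : ℂ) : ∀ᵐ t ∂Tto.hm, zz t ≠ ζ := by
  have hs : {t : AddCircle (1:ℝ) | zz t = ζ}.Subsingleton := by
    intro s hs t ht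
    have h : zz s = zz t := by rw [hs, ht]
    unfold zz at h
    rw [fourier_one, fourier_one] at h
    exact AddCircle.injective_toCircle one_ne_zero (Subtype.ext h)
  have h0 : Tto.hm {t : AddCircle (1:ℝ) | zz t = ζ} = 0 := by
    rcases hs.eq_empty_or_singleton with h | ⟨x, h⟩
    · rw [h, measure_empty]
    · rw [h]; exact meas_singleton x
  rw [ae_iff]
  simpa using h0

lemma coeff_zero_of_le (f : Tto.L2) (m : ℤ) (g : ℕ → ℤ) (hg : Function.Injective g)
    (h : ∀ k, ‖(inner ℂ (Tto.ee m) f : ℂ)‖ ≤ ‖(inner ℂ (Tto.ee (g k)) f : ℂ)‖) :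
    inner ℂ (Tto.ee m) f = (0 : ℂ) := by
  have hs : Summable fun i : ℤ => ‖(inner ℂ (Tto.ee i) f : ℂ)‖ ^ 2 :=
    Orthonormal.inner_products_summable f (orthonormal_fourier (T := (1 : ℝ)))
  have ht : Filter.Tendsto (fun k => ‖(inner ℂ (Tto.ee (g k)) f : ℂ)‖ ^ 2) Filter.atTop (nhds 0) := by
    have := hs.tendsto_cofinite_zero
    exact (this.comp hg.tendsto_cofinite).comp (by rw [Nat.cofinite_eq_atTop]; exact Filter.tendsto_id)
  have h2 : ‖(inner ℂ (Tto.ee m) f : ℂ)‖ ^ 2 ≤ 0 :=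
    ge_of_tendsto' ht (fun k => pow_le_pow_left₀ (norm_nonneg _) (h k) 2)
  have h3 : ‖(inner ℂ (Tto.ee m) f : ℂ)‖ = 0 := by
    nlinarith [norm_nonneg (inner ℂ (Tto.ee m) f : ℂ)]
  exact norm_eq_zero.1 h3

lemma rec_coeff {f g : Tto.L2} {β : ℂ} (h : ∀ᵐ t ∂Tto.hm, g t = (1 - β * zz t) * f t) (m : ℤ) :
    inner ℂ (Tto.ee m) g = (inner ℂ (Tto.ee m) f - β * inner ℂ (Tto.ee (m - 1)) f : ℂ) := by
  have hg : g = f - β • Tto.zm 1 f := by
    refine Tto.ext_ae _ _ ?_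
    filter_upwards [h, Lp.coeFn_sub f (β • Tto.zm 1 f), Lp.coeFn_smul β (Tto.zm 1 f),
      Tto.zm_coe 1 f] with t h1 h2 h3 h4
    rw [h1, h2, Pi.sub_apply, h3, Pi.smul_apply, h4, smul_eq_mul]
    unfold zz
    ring
  rw [hg, inner_sub_right, inner_smul_right, Tto.inner_ee_zm]

lemma div_H2 {f g : Tto.L2} {β : ℂ} (hβ : ‖β‖ ≤ 1)
    (h : ∀ᵐ t ∂Tto.hm, g t = (1 - β * zz t) * f t) (hg : g ∈ Tto.H2) : f ∈ Tto.H2 := by
  rw [Tto.mem_H2] at hg ⊢
  intro m hm
  have hstep : ∀ m : ℤ, m < 0 →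
      ‖(inner ℂ (Tto.ee m) f : ℂ)‖ ≤ ‖(inner ℂ (Tto.ee (m - 1)) f : ℂ)‖ := by
    intro m hm
    have h1 := rec_coeff h m
    rw [hg m hm] at h1
    have h2 : (inner ℂ (Tto.ee m) f : ℂ) = β * inner ℂ (Tto.ee (m - 1)) f := by
      linear_combination -h1
    rw [h2, norm_mul]
    calc ‖β‖ * ‖(inner ℂ (Tto.ee (m - 1)) f : ℂ)‖ ≤ 1 * ‖(inner ℂ (Tto.ee (m - 1)) f : ℂ)‖ :=
          mul_le_mul_of_nonneg_right hβ (norm_nonneg _)
      _ = _ := one_mul _
  refine coeff_zero_of_le f m (fun k => m - k) (fun a b hab => by simpa using hab) ?_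
  intro k
  induction k with
  | zero => simp
  | succ k ih =>
    refine ih.trans ?_
    have := hstep (m - k) (by omega)
    have h2 : m - (k:ℤ) - 1 = m - ((k + 1 : ℕ) : ℤ) := by push_cast; ring
    rwa [h2] at this

lemma div_neg {q r : Tto.L2} {β : ℂ} (hβ : ‖β‖ = 1)
    (h : ∀ᵐ t ∂Tto.hm, r t = (1 - β * zz t) * q t)
    (hr : ∀ m : ℤ, 1 ≤ m → inner ℂ (Tto.ee m) r = (0:ℂ)) :
    ∀ m : ℤ, 0 ≤ m → inner ℂ (Tto.ee m) q = (0:ℂ) := by
  intro m hm
  have hstep : ∀ m : ℤ, 0 ≤ m →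
      ‖(inner ℂ (Tto.ee m) q : ℂ)‖ ≤ ‖(inner ℂ (Tto.ee (m + 1)) q : ℂ)‖ := by
    intro m hm
    have h1 := rec_coeff h (m + 1)
    rw [hr (m + 1) (by omega), add_sub_cancel_right] at h1
    have h2 : (inner ℂ (Tto.ee (m + 1)) q : ℂ) = β * inner ℂ (Tto.ee m) q := by
      linear_combination -h1
    rw [h2, norm_mul, hβ, one_mul]
  refine coeff_zero_of_le q m (fun k => m + k) (fun a b hab => by simpa using hab) ?_
  intro k
  induction k with
  | zero => simp
  | succ k ih =>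
    refine ih.trans ?_
    have := hstep (m + k) (by omega)
    have h2 : m + (k:ℤ) + 1 = m + ((k + 1 : ℕ) : ℤ) := by push_cast; ring
    rwa [h2] at this

lemma denom_ne {a z : ℂ} (ha : ‖a‖ < 1) (hz : ‖z‖ = 1) : 1 - conj a * z ≠ 0 := by
  intro h
  have h1 : conj a * z = 1 := (sub_eq_zero.mp h).symm
  have h2 : ‖conj a * z‖ = ‖a‖ := by rw [norm_mul, RCLike.norm_conj, hz, mul_one]
  rw [h1, norm_one] at h2
  linarith

lemma factor_norm {a z : ℂ} (ha : ‖a‖ < 1) (hz : ‖z‖ = 1) :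
    ‖(z - a) / (1 - conj a * z)‖ = 1 := by
  have hzz : z * conj z = 1 := by
    rw [Complex.mul_conj, Complex.normSq_eq_norm_sq, hz]; norm_num
  have h1 : 1 - conj a * z = z * conj (z - a) := by
    rw [map_sub]; linear_combination -hzz
  have h2 : ‖1 - conj a * z‖ = ‖z - a‖ := by
    rw [h1, norm_mul, hz, one_mul, RCLike.norm_conj]
  have h3 : ‖z - a‖ ≠ 0 := by
    rw [← h2]; exact norm_ne_zero_iff.mpr (denom_ne ha hz)
  rw [norm_div, h2, div_self h3]

lemma blaschke_norm {n : ℕ} {c : ℂ} {a : Fin n → ℂ} (hc : ‖c‖ = 1) (ha : ∀ j, ‖a j‖ < 1) {z : ℂ}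
    (hz : ‖z‖ = 1) : ‖blaschke c a z‖ = 1 := by
  unfold blaschke
  rw [norm_mul, hc, one_mul, norm_prod]
  exact Finset.prod_eq_one fun j _ => factor_norm (ha j) hz

lemma prod_H2 {n : ℕ} {a : Fin n → ℂ} (ha : ∀ j, ‖a j‖ < 1) (s : Finset (Fin n)) :
    ∃ f : Tto.L2, (∀ᵐ t ∂Tto.hm, f t = ∏ j ∈ s, (zz t - a j) / (1 - conj (a j) * zz t)) ∧
      f ∈ Tto.H2 := by
  classical
  induction s using Finset.induction_on with
  | empty =>
    refine ⟨Tto.ee 0, ?_, Tto.ee_mem_H2 le_rfl⟩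
    filter_upwards [Tto.ee_coe 0] with t ht
    rw [ht, Finset.prod_empty, fourier_zero]
  | insert j s hj ih =>
    obtain ⟨f, hf, hfH⟩ := ih
    have hcont : Continuous (fun t => (zz t - a j) / (1 - conj (a j) * zz t)) :=
      (zz_cont.sub continuous_const).div (continuous_const.sub (continuous_const.mul zz_cont))
        (fun t => denom_ne (ha j) (zz_norm t))
    obtain ⟨g, hg⟩ := Tto.ex_mul (fun t => (zz t - a j) / (1 - conj (a j) * zz t))
      hcont.aestronglyMeasurable 1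
      (Filter.Eventually.of_forall fun t => (factor_norm (ha j) (zz_norm t)).le) f
    refine ⟨g, ?_, ?_⟩
    · filter_upwards [hf, hg] with t h1 h2
      rw [h2, h1, Finset.prod_insert hj]
    · have hG : Tto.zm 1 f - a j • f ∈ Tto.H2 :=
        Tto.H2.sub_mem (Tto.zm_mem_H2 (by norm_num) hfH) (Tto.H2.smul_mem _ hfH)
      refine div_H2 (β := conj (a j)) (by rw [RCLike.norm_conj]; exact (ha j).le) ?_ hG
      filter_upwards [hg, Lp.coeFn_sub (Tto.zm 1 f) (a j • f), Lp.coeFn_smul (a j) f,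
        Tto.zm_coe 1 f] with t h1 h2 h3 h4
      rw [h1, h2, Pi.sub_apply, h3, Pi.smul_apply, h4, smul_eq_mul]
      have hne := denom_ne (ha j) (zz_norm t)
      have hne2 : 1 - zz t * conj (a j) ≠ 0 := by rw [mul_comm]; exact hne
      change zz t * f t - a j * f t = _
      field_simp

lemma theta_H2 {n : ℕ} {c : ℂ} {a : Fin n → ℂ} (ha : ∀ j, ‖a j‖ < 1) {Θ : Tto.L2}
    (hΘ : ∀ᵐ t ∂Tto.hm, Θ t = blaschke c a (zz t)) : Θ ∈ Tto.H2 := by
  obtain ⟨f, hf, hfH⟩ := prod_H2 ha Finset.univ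
  have : Θ = c • f := by
    refine Tto.ext_ae _ _ ?_
    filter_upwards [hΘ, hf, Lp.coeFn_smul c f] with t h1 h2 h3
    rw [h1, h3, Pi.smul_apply, h2, smul_eq_mul]
    rfl
  rw [this]
  exact Tto.H2.smul_mem _ hfH

/-- the boundary kernels are in the model space -/
lemma kernel_mem {Θ k : Tto.L2} {α ζ : ℂ} (hΘH : Θ ∈ Tto.H2) (hΘ1 : ∀ᵐ t ∂Tto.hm, ‖Θ t‖ = 1)
    (hζ : ‖ζ‖ = 1)
    (hk : ∀ᵐ t ∂Tto.hm, k t = (1 - conj α * Θ t) / (1 - conj ζ * zz t)) :
    k ∈ Tto.model Θ := by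
  have hne : ∀ᵐ t ∂Tto.hm, 1 - conj ζ * zz t ≠ 0 := by
    filter_upwards [ae_ne ζ] with t ht h
    apply ht
    have hζζ : ζ * conj ζ = 1 := by
      rw [Complex.mul_conj, Complex.normSq_eq_norm_sq, hζ]; norm_num
    linear_combination (-ζ) * h - zz t * hζζ
  rw [Tto.mem_model]
  constructor
  · have hG : Tto.ee 0 - conj α • Θ ∈ Tto.H2 :=
      Tto.H2.sub_mem (Tto.ee_mem_H2 le_rfl) (Tto.H2.smul_mem _ hΘH)
    refine div_H2 (β := conj ζ) (by rw [RCLike.norm_conj, hζ]) ?_ hG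
    filter_upwards [hk, hne, Lp.coeFn_sub (Tto.ee 0) (conj α • Θ), Lp.coeFn_smul (conj α) Θ,
      Tto.ee_coe 0] with t h1 h2 h3 h4 h5
    rw [h3, Pi.sub_apply, h4, Pi.smul_apply, h5, h1, fourier_zero, smul_eq_mul]
    field_simp
  · intro h hh g hg
    have hmeas : AEStronglyMeasurable (fun t => conj (Θ t)) Tto.hm :=
      Complex.continuous_conj.comp_aestronglyMeasurable (Lp.aestronglyMeasurable Θ)
    have hbd : ∀ᵐ t ∂Tto.hm, ‖conj (Θ t)‖ ≤ 1 := by
      filter_upwards [hΘ1] with t ht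
      rw [RCLike.norm_conj, ht]
    obtain ⟨q, hq⟩ := Tto.ex_mul (fun t => conj (Θ t)) hmeas 1 hbd k
    obtain ⟨s, hs⟩ := Tto.ex_mul (fun t => conj (Θ t)) hmeas 1 hbd (Tto.ee 0)
    have hr : ∀ᵐ t ∂Tto.hm, (s - conj α • Tto.ee 0) t = (1 - conj ζ * zz t) * q t := by
      filter_upwards [hk, hne, hq, hs, Lp.coeFn_sub s (conj α • Tto.ee 0),
        Lp.coeFn_smul (conj α) (Tto.ee 0), Tto.ee_coe 0, hΘ1] with t h1 h2 h3 h4 h5 h6 h7 h8
      rw [h5, Pi.sub_apply, h6, Pi.smul_apply, h4, h3, h1, h7, fourier_zero, smul_eq_mul]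
      have h9 : conj (Θ t) * Θ t = (1 : ℂ) := by
        rw [← Complex.normSq_eq_conj_mul_self, Complex.normSq_eq_norm_sq, h8]
        norm_num
      have h10 : (1 - conj ζ * zz t) * (conj (Θ t) * ((1 - conj α * Θ t) / (1 - conj ζ * zz t)))
          = conj (Θ t) * (1 - conj α * Θ t) := by
        field_simp
      rw [h10]
      linear_combination (conj α) * h9
    have hcoef : ∀ m : ℤ, 1 ≤ m → inner ℂ (Tto.ee m) (s - conj α • Tto.ee 0) = (0:ℂ) := by
      intro m hm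
      rw [inner_sub_right, inner_smul_right, Tto.ee_inner, if_neg (by omega), mul_zero, sub_zero]
      have h1 : inner ℂ (Tto.ee m) s = conj (inner ℂ (Tto.ee (-m)) Θ : ℂ) := by
        rw [Tto.inner_eq, Tto.inner_eq, ← integral_conj]
        refine integral_congr_ae ?_
        filter_upwards [hs, Tto.ee_coe m, Tto.ee_coe (-m), Tto.ee_coe 0] with t h1 h2 h3 h4
        rw [h1, h2, h3, h4, fourier_zero, mul_one, map_mul, Complex.conj_conj, fourier_neg]
      rw [h1, (Tto.mem_H2 Θ).1 hΘH _ (by omega), map_zero]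
    have hq0 := div_neg (β := conj ζ) (by rw [RCLike.norm_conj, hζ]) hr hcoef
    have h1 : inner ℂ g k = (inner ℂ h q : ℂ) := by
      rw [Tto.inner_eq, Tto.inner_eq]
      refine integral_congr_ae ?_
      filter_upwards [hg, hq] with t h1 h2
      rw [h1, h2, map_mul]
      ring
    rw [h1]
    refine Tto.inner_tsum_zero _ _ fun j => ?_
    rcases lt_or_ge j 0 with hj | hj
    · left
      rw [← inner_conj_symm, (Tto.mem_H2 h).1 hh j hj, map_zero]
    · right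
      exact hq0 j hj

/-- the boundary kernels are bounded -/
lemma kernel_bdd {n : ℕ} {c : ℂ} {a : Fin n → ℂ} (ha : ∀ j, ‖a j‖ < 1) {α ζ : ℂ} (hα : ‖α‖ = 1)
    (hζ : ‖ζ‖ = 1) (hsol : blaschke c a ζ = α) {k : Tto.L2}
    (hk : ∀ᵐ t ∂Tto.hm, k t = (1 - conj α * blaschke c a (zz t)) / (1 - conj ζ * zz t)) :
    ∃ C : ℝ, ∀ᵐ t ∂Tto.hm, ‖k t‖ ≤ C := by
  set D : Polynomial ℂ := ∏ j, (1 - Polynomial.C (conj (a j)) * Polynomial.X) with hD
  set E : Polynomial ℂ := ∏ j, (Polynomial.X - Polynomial.C (a j)) with hE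
  have hDe : ∀ z, D.eval z = ∏ j, (1 - conj (a j) * z) := by
    intro z
    rw [hD, Polynomial.eval_prod]
    simp
  have hEe : ∀ z, E.eval z = ∏ j, (z - a j) := by
    intro z
    rw [hE, Polynomial.eval_prod]
    simp
  have hDne : ∀ z, ‖z‖ = 1 → D.eval z ≠ 0 := by
    intro z hz
    rw [hDe, Finset.prod_ne_zero_iff]
    intro j _
    exact denom_ne (ha j) hz
  have hbl : ∀ z, blaschke c a z = c * E.eval z / D.eval z := by
    intro z
    unfold blaschke
    rw [hDe, hEe, Finset.prod_div_distrib, mul_div_assoc]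
  have hαα : conj α * α = 1 := by
    rw [← Complex.normSq_eq_conj_mul_self, Complex.normSq_eq_norm_sq, hα]; norm_num
  have hζζ : conj ζ * ζ = 1 := by
    rw [← Complex.normSq_eq_conj_mul_self, Complex.normSq_eq_norm_sq, hζ]; norm_num
  have hN : (D - Polynomial.C (conj α * c) * E).IsRoot ζ := by
    rw [Polynomial.IsRoot.def, Polynomial.eval_sub, Polynomial.eval_mul, Polynomial.eval_C]
    have h1 := hsol
    rw [hbl, div_eq_iff (hDne ζ hζ)] at h1
    linear_combination (-conj α) * h1 - (D.eval ζ) * hαα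
  obtain ⟨Q, hQ⟩ := Polynomial.dvd_iff_isRoot.mpr hN
  have hcont : Continuous (fun t : AddCircle (1:ℝ) => -ζ * Q.eval (zz t) / D.eval (zz t)) :=
    (continuous_const.mul (Q.continuous.comp zz_cont)).div (D.continuous.comp zz_cont)
      (fun t => hDne _ (zz_norm t))
  obtain ⟨C, hC⟩ := isCompact_univ.exists_bound_of_continuousOn hcont.continuousOn
  refine ⟨C, ?_⟩
  filter_upwards [hk, ae_ne ζ] with t h1 h2
  have h3 : k t = -ζ * Q.eval (zz t) / D.eval (zz t) := by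
    have h4 := congrArg (Polynomial.eval (zz t)) hQ
    simp only [Polynomial.eval_sub, Polynomial.eval_mul, Polynomial.eval_C, Polynomial.eval_X] at h4
    have h5 := hDne _ (zz_norm t)
    have h6 : 1 - conj ζ * zz t ≠ 0 := by
      intro h
      apply h2
      linear_combination (-ζ) * h - zz t * hζζ
    rw [h1, hbl]
    rw [div_eq_div_iff h6 h5]
    have h7 : (1 - conj α * (c * E.eval (zz t) / D.eval (zz t))) * D.eval (zz t)
        = D.eval (zz t) - conj α * c * E.eval (zz t) := by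
      field_simp
    rw [h7, h4]
    linear_combination (-(Q.eval (zz t) * zz t)) * hζζ
  rw [h3]
  exact hC t (Set.mem_univ t)

end Pool.Agent.Helper774_AC
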