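import Pool.Agent.Helper774_AC.Def
import Pool.Agent.R307.Tto7

/-!
# The matrix `M0` is a truncated Toeplitz operator on the model space of `z ^ 3`
-/

set_option autoImplicit false

open MeasureTheory Pool.Agent.R307
open scoped ComplexConjugate

namespace Pool.Agent.Helper774_AC

/-- `1 / √2` as a complex number -/
noncomputable def rr : ℂ := ((√2 / 2 : ℝ) : ℂ)

lemma rr_sq : rr * rr = 1 / 2 := by
  unfold rr
  rw [← Complex.ofReal_mul]
  have : √2 / 2 * (√2 / 2) = (1 / 2 : ℝ) := by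
    have := Real.mul_self_sqrt (show (0:ℝ) ≤ 2 by norm_num)
    nlinarith
  rw [this]; norm_num

lemma rr_conj : conj rr = rr := by
  unfold rr
  exact Complex.conj_ofReal _

/-- the unitary map -/
noncomputable def UU (x : EuclideanSpace ℂ (Fin 3)) : Tto.L2 :=
  (rr * (x 0 + Complex.I * x 2)) • Tto.ee 0 + x 1 • Tto.ee 1 + (rr * (x 0 - Complex.I * x 2)) • Tto.ee 2

/-- coefficients of the symbol -/
noncomputable def tp : ℂ := rr * (1 - Complex.I)
noncomputable def tm : ℂ := rr * (1 + Complex.I)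

/-- the operator -/
noncomputable def AA : Tto.L2 →L[ℂ] Tto.L2 :=
  (tm • innerSL ℂ (Tto.ee 1)).smulRight (Tto.ee 0) +
  (tp • innerSL ℂ (Tto.ee 0) + tm • innerSL ℂ (Tto.ee 2)).smulRight (Tto.ee 1) +
  ((2 : ℂ) • innerSL ℂ (Tto.ee 0) + tp • innerSL ℂ (Tto.ee 1)).smulRight (Tto.ee 2)

lemma AA_apply (f : Tto.L2) : AA f =
    (tm * inner ℂ (Tto.ee 1) f) • Tto.ee 0 +
    (tp * inner ℂ (Tto.ee 0) f + tm * inner ℂ (Tto.ee 2) f) • Tto.ee 1 +
    (2 * inner ℂ (Tto.ee 0) f + tp * inner ℂ (Tto.ee 1) f) • Tto.ee 2 := by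
  simp [AA]

lemma UU_coeff (x : EuclideanSpace ℂ (Fin 3)) :
    inner ℂ (Tto.ee 0) (UU x) = rr * (x 0 + Complex.I * x 2) ∧
    inner ℂ (Tto.ee 1) (UU x) = x 1 ∧
    inner ℂ (Tto.ee 2) (UU x) = rr * (x 0 - Complex.I * x 2) := by
  unfold UU
  refine ⟨?_, ?_, ?_⟩ <;>
  · rw [inner_add_right, inner_add_right, inner_smul_right, inner_smul_right, inner_smul_right,
      Tto.ee_inner, Tto.ee_inner, Tto.ee_inner]
    norm_num

lemma span_mem (x y z : ℂ) :
    x • Tto.ee 0 + y • Tto.ee 1 + z • Tto.ee 2 ∈ Tto.model (Tto.ee 3) := by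
  have h := (Tto.mem_model_ee 3 (x • Tto.ee 0 + y • Tto.ee 1 + z • Tto.ee 2)).2 (by
    intro j hj
    rw [inner_add_right, inner_add_right, inner_smul_right, inner_smul_right, inner_smul_right,
      Tto.ee_inner, Tto.ee_inner, Tto.ee_inner, if_neg (by omega), if_neg (by omega), if_neg (by omega)]
    ring)
  exact h

/-- an element of the model space is determined by three coefficients -/
lemma ext3 {f g : Tto.L2} (hf : f ∈ Tto.model (Tto.ee 3)) (hg : g ∈ Tto.model (Tto.ee 3))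
    (h0 : inner ℂ (Tto.ee 0) f = (inner ℂ (Tto.ee 0) g : ℂ))
    (h1 : inner ℂ (Tto.ee 1) f = (inner ℂ (Tto.ee 1) g : ℂ))
    (h2 : inner ℂ (Tto.ee 2) f = (inner ℂ (Tto.ee 2) g : ℂ)) : f = g := by
  have hf' := (Tto.mem_model_ee 3 f).1 hf
  have hg' := (Tto.mem_model_ee 3 g).1 hg
  apply sub_eq_zero.1
  apply Tto.eq_zero_of_coeff
  intro n
  rw [inner_sub_right]
  by_cases hn : n < 0 ∨ ((3 : ℕ) : ℤ) ≤ n
  · rw [hf' n hn, hg' n hn, sub_zero]
  · push Not at hn
    have h3 : n = 0 ∨ n = 1 ∨ n = 2 := by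
      have := hn.1; have := hn.2; omega
    rcases h3 with rfl | rfl | rfl
    · rw [h0, sub_self]
    · rw [h1, sub_self]
    · rw [h2, sub_self]

/-- the symbol -/
noncomputable def phi : Tto.L2 := tm • Tto.ee (-1) + tp • Tto.ee 1 + (2 : ℂ) • Tto.ee 2

lemma phi_coe : ∀ᵐ t ∂Tto.hm, phi t = tm * fourier (-1) t + tp * fourier 1 t + 2 * fourier 2 t := by
  unfold phi
  filter_upwards [Lp.coeFn_add (tm • Tto.ee (-1) + tp • Tto.ee 1) ((2 : ℂ) • Tto.ee 2),
    Lp.coeFn_add (tm • Tto.ee (-1)) (tp • Tto.ee 1), Lp.coeFn_smul tm (Tto.ee (-1)),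
    Lp.coeFn_smul tp (Tto.ee 1), Lp.coeFn_smul (2:ℂ) (Tto.ee 2), Tto.ee_coe (-1), Tto.ee_coe 1,
    Tto.ee_coe 2] with t h1 h2 h3 h4 h5 h6 h7 h8
  rw [h1, Pi.add_apply, h2, Pi.add_apply, h3, h4, h5, Pi.smul_apply, Pi.smul_apply, Pi.smul_apply,
    h6, h7, h8]
  simp only [smul_eq_mul]

lemma AA_mem (f : Tto.L2) : AA f ∈ Tto.model (Tto.ee 3) := by
  rw [AA_apply]
  exact span_mem _ _ _

lemma core (f p g : Tto.L2) (hf : f ∈ Tto.model (Tto.ee 3)) (hg : g ∈ Tto.model (Tto.ee 3))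
    (hp : ∀ᵐ t ∂Tto.hm, p t = phi t * f t) : inner ℂ g p = (inner ℂ g (AA f) : ℂ) := by
  have hf' := (Tto.mem_model_ee 3 f).1 hf
  have hg' := (Tto.mem_model_ee 3 g).1 hg
  have hp2 : p = tm • Tto.zm (-1) f + tp • Tto.zm 1 f + (2:ℂ) • Tto.zm 2 f := by
    refine Tto.ext_ae _ _ ?_
    filter_upwards [hp, phi_coe,
      Lp.coeFn_add (tm • Tto.zm (-1) f + tp • Tto.zm 1 f) ((2 : ℂ) • Tto.zm 2 f),
      Lp.coeFn_add (tm • Tto.zm (-1) f) (tp • Tto.zm 1 f), Lp.coeFn_smul tm (Tto.zm (-1) f),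
      Lp.coeFn_smul tp (Tto.zm 1 f), Lp.coeFn_smul (2:ℂ) (Tto.zm 2 f), Tto.zm_coe (-1) f,
      Tto.zm_coe 1 f, Tto.zm_coe 2 f] with t h1 h2 h3 h4 h5 h6 h7 h8 h9 h10
    rw [h1, h2, h3, Pi.add_apply, h4, Pi.add_apply, h5, h6, h7, Pi.smul_apply, Pi.smul_apply,
      Pi.smul_apply, h8, h9, h10]
    simp only [smul_eq_mul]
    ring
  have hz : ∀ n : ℤ, (n < 0 ∨ 3 ≤ n) → inner ℂ (Tto.ee n) f = (0:ℂ) := fun n hn => hf' n (by
    push_cast; exact hn)
  have hcoef : ∀ j : ℤ, inner ℂ (Tto.ee j) p =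
      tm * inner ℂ (Tto.ee (j + 1)) f + tp * inner ℂ (Tto.ee (j - 1)) f
        + 2 * inner ℂ (Tto.ee (j - 2)) f := by
    intro j
    rw [hp2, inner_add_right, inner_add_right, inner_smul_right, inner_smul_right,
      inner_smul_right, Tto.inner_ee_zm, Tto.inner_ee_zm, Tto.inner_ee_zm, sub_neg_eq_add]
  have h0 : inner ℂ g (p - AA f) = (0:ℂ) := by
    refine Tto.inner_tsum_zero _ _ fun j => ?_
    by_cases hj : j < 0 ∨ ((3 : ℕ) : ℤ) ≤ j
    · left
      rw [← inner_conj_symm, hg' j hj, map_zero]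
    · right
      push Not at hj
      have h3 : j = 0 ∨ j = 1 ∨ j = 2 := by
        have := hj.1; have := hj.2; omega
      rw [inner_sub_right, hcoef, AA_apply, inner_add_right, inner_add_right, inner_smul_right,
        inner_smul_right, inner_smul_right, Tto.ee_inner, Tto.ee_inner, Tto.ee_inner]
      rcases h3 with rfl | rfl | rfl
      · rw [hz (0 - 1) (by norm_num), hz (0 - 2) (by norm_num)]
        norm_num
      · rw [hz (1 - 2) (by norm_num)]
        norm_num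
        ring
      · rw [hz (2 + 1) (by norm_num)]
        norm_num
        ring
  rw [inner_sub_right] at h0
  exact sub_eq_zero.1 h0

lemma UU_surj (f : Tto.L2) (hf : f ∈ Tto.model (Tto.ee 3)) : ∃ x, UU x = f := by
  refine ⟨WithLp.toLp 2 ![rr * (inner ℂ (Tto.ee 0) f + inner ℂ (Tto.ee 2) f), inner ℂ (Tto.ee 1) f,
    -Complex.I * rr * (inner ℂ (Tto.ee 0) f - inner ℂ (Tto.ee 2) f)], ?_⟩
  refine ext3 (span_mem _ _ _) hf ?_ ?_ ?_
  · rw [(UU_coeff _).1]
    simp only [Matrix.cons_val_zero, Matrix.cons_val]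
    linear_combination (2 * inner ℂ (Tto.ee 0) f) * rr_sq
      - rr * rr * (inner ℂ (Tto.ee 0) f - inner ℂ (Tto.ee 2) f) * Complex.I_mul_I
  · rw [(UU_coeff _).2.1]
    simp
  · rw [(UU_coeff _).2.2]
    simp only [Matrix.cons_val_zero, Matrix.cons_val]
    linear_combination (2 * inner ℂ (Tto.ee 2) f) * rr_sq
      + rr * rr * (inner ℂ (Tto.ee 0) f - inner ℂ (Tto.ee 2) f) * Complex.I_mul_I

lemma UU_inner (x y : EuclideanSpace ℂ (Fin 3)) : inner ℂ (UU x) (UU y) = (inner ℂ x y : ℂ) := by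
  have hy := UU_coeff y
  have h1 : inner ℂ (UU x) (UU y) = conj (rr * (x 0 + Complex.I * x 2)) * inner ℂ (Tto.ee 0) (UU y)
      + conj (x 1) * inner ℂ (Tto.ee 1) (UU y)
      + conj (rr * (x 0 - Complex.I * x 2)) * inner ℂ (Tto.ee 2) (UU y) := by
    conv_lhs => rw [UU]
    rw [inner_add_left, inner_add_left, inner_smul_left, inner_smul_left, inner_smul_left]
  rw [h1, hy.1, hy.2.1, hy.2.2, PiLp.inner_apply, Fin.sum_univ_three]
  simp only [map_mul, map_add, map_sub, rr_conj, Complex.conj_I, RCLike.inner_apply]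
  linear_combination (2 * conj (x 0) * y 0 - 2 * Complex.I * Complex.I * conj (x 2) * y 2) * rr_sq
    - (conj (x 2) * y 2) * Complex.I_mul_I

lemma UU_act (x : EuclideanSpace ℂ (Fin 3)) : UU (act M0 x) = AA (UU x) := by
  refine ext3 (span_mem _ _ _) (AA_mem _) ?_ ?_ ?_
  · rw [(UU_coeff _).1, AA_apply, inner_add_right, inner_add_right, inner_smul_right,
        inner_smul_right, inner_smul_right, Tto.ee_inner, Tto.ee_inner, Tto.ee_inner,
        (UU_coeff x).1, (UU_coeff x).2.1, (UU_coeff x).2.2]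
    simp only [act, M0, Matrix.mulVec, dotProduct, Fin.sum_univ_three, tm, tp]
    simp
    ring_nf
    simp [Complex.I_sq]
    try ring
  · rw [(UU_coeff _).2.1, AA_apply, inner_add_right, inner_add_right, inner_smul_right,
        inner_smul_right, inner_smul_right, Tto.ee_inner, Tto.ee_inner, Tto.ee_inner,
        (UU_coeff x).1, (UU_coeff x).2.1, (UU_coeff x).2.2]
    simp only [act, M0, Matrix.mulVec, dotProduct, Fin.sum_univ_three, tm, tp]
    simp
    linear_combination (-2 * (x 0) + 2 * Complex.I * Complex.I * x 2) * rr_sq + x 2 * Complex.I_mul_I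
  · rw [(UU_coeff _).2.2, AA_apply, inner_add_right, inner_add_right, inner_smul_right,
        inner_smul_right, inner_smul_right, Tto.ee_inner, Tto.ee_inner, Tto.ee_inner,
        (UU_coeff x).1, (UU_coeff x).2.1, (UU_coeff x).2.2]
    simp only [act, M0, Matrix.mulVec, dotProduct, Fin.sum_univ_three, tm, tp]
    simp
    ring_nf
    simp [Complex.I_sq]
    try ring

lemma phi_bdd : ∃ C : ℝ, ∀ᵐ t ∂Tto.hm, ‖phi t‖ ≤ C := by
  refine ⟨‖tm‖ + ‖tp‖ + 2, ?_⟩
  filter_upwards [phi_coe] with t ht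
  rw [ht]
  refine (norm_add_le _ _).trans (add_le_add ((norm_add_le _ _).trans (add_le_add ?_ ?_)) ?_)
  · rw [norm_mul, Tto.norm_fourier, mul_one]
  · rw [norm_mul, Tto.norm_fourier, mul_one]
  · rw [norm_mul, Tto.norm_fourier, mul_one]; norm_num

theorem uetto_M0 : UETTOMatrix M0 :=
  ⟨Tto.ee 3, phi, Tto.inner_ee 3 (by norm_num), phi_bdd, AA,
    ⟨⟨AA, fun _ => rfl⟩, fun f _ => AA_mem f, fun f p hf _ hp g hg => core f p g hf hg hp⟩, UU,
    ⟨fun x => span_mem _ _ _, fun f hf => UU_surj f hf, fun x y => UU_inner x y⟩,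
    fun x => UU_act x⟩

end Pool.Agent.Helper774_AC
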